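import Pool.Agent.MP_489c42_pr.H12.Main

namespace Pool.Agent.Results.MP_489c42_pr.AllTimes

open MeasureTheory ProbabilityTheory Filter Pool.Agent.MP_489c42_pr.H12
open scoped NNReal

universe u

theorem result (d : ℕ) (hd : 2 ≤ d) (ν : Measure ℝ≥0) [IsProbabilityMeasure ν]
    (hν : ν.real {0} < pc d) :
    ∃ C : ℝ, 0 < C ∧ ∀ (Ω : Type u) [MeasurableSpace Ω] (μ : Measure Ω) [IsProbabilityMeasure μ]
      (τ : E d → Ω → ℝ≥0), (∀ e, Measurable (τ e)) → iIndepFun τ μ → (∀ e, μ.map (τ e) = ν) →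
      ∀ᵐ ω ∂μ, ∀ᶠ t : ℝ in atTop,
        ((edgeBdry (fppBall (fun e => τ e ω) t)).Finite ∧
          ((edgeBdry (fppBall (fun e => τ e ω) t)).ncard : ℝ) ≤ C * t ^ (d - 1) * EY d ν t) ∧
        ((edgeExt (fppBall (fun e => τ e ω) t)).Finite ∧
          ((edgeExt (fppBall (fun e => τ e ω) t)).ncard : ℝ) ≤ C * t ^ (d - 1)) := by
  obtain ⟨C, hC, h⟩ := main_canon hd ν hν
  exact ⟨C, hC, fun Ω _ μ _ τ hm hind hlaw => ae_transfer ν μ τ hm hind hlaw h⟩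

end Pool.Agent.Results.MP_489c42_pr.AllTimes
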